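import Mathlib

open Filter Topology Matrix

namespace Pool.Agent.Results.MP_b5bb8b_co.LinearGrowth

/-! ### The nonbacktracking matrix, Jordan blocks, and the function `f` -/

open Classical in
/-- The nonbacktracking matrix of a graph, indexed by its directed edges (darts). -/
noncomputable def nbMatrix {V : Type*} (G : SimpleGraph V) : Matrix G.Dart G.Dart ℂ :=
  fun d e => if d.snd = e.fst ∧ d.fst ≠ e.snd then 1 else 0

/-- The Jordan normal form of `M` has a block of size exactly `s` for the eigenvalue `μ`: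
the number of such blocks is `rank N^(s-1) - 2 rank N^s + rank N^(s+1)` for `N = M - μ`. -/
def IsJordanBlockSize {D : Type*} [Fintype D] [DecidableEq D] (M : Matrix D D ℂ) (μ : ℂ)
    (s : ℕ) : Prop :=
  1 ≤ s ∧ 2 * ((M - Matrix.scalar D μ) ^ s).rank <
    ((M - Matrix.scalar D μ) ^ (s - 1)).rank + ((M - Matrix.scalar D μ) ^ (s + 1)).rank

/-- No vertex has exactly one neighbour. -/
def NoLeaves {V : Type*} (G : SimpleGraph V) : Prop := ∀ v, (G.neighborSet v).ncard ≠ 1

open Classical in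
/-- The sizes of Jordan blocks of nonbacktracking matrices of graphs on `n` vertices without
leaves and with at least one edge. -/
def blockSizes (n : ℕ) : Set ℕ :=
  {s | ∃ G : SimpleGraph (Fin n), NoLeaves G ∧ (∃ u v, G.Adj u v) ∧
    ∃ μ : ℂ, IsJordanBlockSize (nbMatrix G) μ s}

/-- `f n` is the largest size of such a Jordan block. -/
noncomputable def f (n : ℕ) : ℕ := sSup (blockSizes n)

/-! ### From series to Jordan chains -/

section chain

variable {D : Type*} [Fintype D] [DecidableEq D]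

lemma exists_block_of_chain (N : Matrix D D ℂ) (s : ℕ) (hs : 1 ≤ s) (x : D → ℂ)
    (h0 : (N ^ s).mulVec x = 0) (h1 : (N ^ (s - 1)).mulVec x ≠ 0) :
    ∃ t, s ≤ t ∧ 2 * (N ^ t).rank < (N ^ (t - 1)).rank + (N ^ (t + 1)).rank := by
  by_contra hcon
  push Not at hcon
  -- strict drop at s
  have hdrop : (N ^ s).rank < (N ^ (s - 1)).rank := by
    have hk : LinearMap.ker (N ^ (s-1)).mulVecLin < LinearMap.ker (N ^ s).mulVecLin := by
      rw [lt_iff_le_not_ge]
      constructor
      · intro v hv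
        rw [LinearMap.mem_ker, Matrix.mulVecLin_apply] at hv ⊢
        have : N ^ s = N * N ^ (s - 1) := by
          rw [← pow_succ']; congr 1; omega
        rw [this, ← Matrix.mulVec_mulVec, hv, Matrix.mulVec_zero]
      · intro hle
        have : x ∈ LinearMap.ker (N ^ (s-1)).mulVecLin := hle (by
          rw [LinearMap.mem_ker, Matrix.mulVecLin_apply]; exact h0)
        rw [LinearMap.mem_ker, Matrix.mulVecLin_apply] at this
        exact h1 this
    have h2 := Submodule.finrank_lt_finrank_of_lt hk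
    have h3 := LinearMap.finrank_range_add_finrank_ker (N ^ (s-1)).mulVecLin
    have h4 := LinearMap.finrank_range_add_finrank_ker (N ^ s).mulVecLin
    unfold Matrix.rank
    omega
  have key : ∀ m, (N ^ (s + m)).rank + (m + 1) ≤ (N ^ (s - 1)).rank ∧
      (N ^ (s + m)).rank < (N ^ (s + m - 1)).rank := by
    intro m
    induction m with
    | zero => simp only [add_zero]; omega
    | succ m ih =>
      have h5 := hcon (s + m) (by omega)
      show (N ^ (s + m + 1)).rank + (m + 1 + 1) ≤ (N ^ (s - 1)).rank ∧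
        (N ^ (s + m + 1)).rank < (N ^ (s + m)).rank
      omega
  have := (key (N ^ (s - 1)).rank).1
  omega

/-- From an approximate eigenvector with power series entries to a Jordan chain. -/
lemma chain_of_series (B : Matrix D D ℂ) (μ : ℂ) (k : ℕ) (hk : 1 ≤ k) (g : D → PowerSeries ℂ)
    (lam u : PowerSeries ℂ) (hlam : lam = PowerSeries.C μ + PowerSeries.X * u)
    (hu : PowerSeries.constantCoeff u ≠ 0)
    (hg : ∀ d, PowerSeries.X ^ k ∣ (∑ e, PowerSeries.C (B d e) * g e) - lam * g d)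
    (d0 : D) (hd0 : PowerSeries.constantCoeff (g d0) ≠ 0) :
    ((B - Matrix.scalar D μ) ^ k).mulVec (fun d => PowerSeries.coeff (k - 1) (g d)) = 0 ∧
    ((B - Matrix.scalar D μ) ^ (k - 1)).mulVec (fun d => PowerSeries.coeff (k - 1) (g d)) ≠ 0 := by
  have claim : ∀ j, ((B - Matrix.scalar D μ) ^ j).mulVec (fun d => PowerSeries.coeff (k - 1) (g d))
      = fun d => PowerSeries.coeff (k - 1) ((PowerSeries.X * u) ^ j * g d) := by
    intro j
    induction j with
    | zero => simp
    | succ j ih =>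
      rw [pow_succ', ← Matrix.mulVec_mulVec, ih]
      funext d
      rw [Matrix.sub_mulVec]
      simp only [Pi.sub_apply, Matrix.mulVec, dotProduct]
      have h1 : ∑ e, B d e * PowerSeries.coeff (k - 1) ((PowerSeries.X * u) ^ j * g e)
          = PowerSeries.coeff (k - 1) ((PowerSeries.X * u) ^ j * ∑ e, PowerSeries.C (B d e) * g e) := by
        rw [Finset.mul_sum, map_sum]
        apply Finset.sum_congr rfl
        intro e _
        rw [← PowerSeries.coeff_C_mul]
        congr 1; ring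
      have h2 : ∑ e, (Matrix.scalar D μ) d e * PowerSeries.coeff (k - 1) ((PowerSeries.X * u) ^ j * g e)
          = PowerSeries.coeff (k - 1) (PowerSeries.C μ * ((PowerSeries.X * u) ^ j * g d)) := by
        rw [Finset.sum_eq_single d]
        · rw [PowerSeries.coeff_C_mul]; simp
        · intro e _ he
          simp [Matrix.scalar_apply, Matrix.diagonal_apply_ne _ he.symm]
        · intro h; exact absurd (Finset.mem_univ d) h
      rw [h1, h2]
      obtain ⟨r, hr⟩ := hg d
      have h3 : ∑ e, PowerSeries.C (B d e) * g e = lam * g d + PowerSeries.X ^ k * r := by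
        rw [← hr]; ring
      rw [h3, ← map_sub]
      have h4 : (PowerSeries.X * u) ^ j * (lam * g d + PowerSeries.X ^ k * r) -
          PowerSeries.C μ * ((PowerSeries.X * u) ^ j * g d) =
          (PowerSeries.X * u) ^ (j + 1) * g d + PowerSeries.X ^ k * ((PowerSeries.X * u) ^ j * r) := by
        rw [hlam]; ring
      rw [h4, map_add, PowerSeries.coeff_X_pow_mul', if_neg (by omega), add_zero]
  constructor
  · rw [claim]
    funext d
    rw [mul_pow, mul_assoc, PowerSeries.coeff_X_pow_mul', if_neg (by omega)]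
    rfl
  · rw [claim]
    intro h
    have h1 := congrFun h d0
    simp only [Pi.zero_apply] at h1
    rw [mul_pow, mul_assoc, PowerSeries.coeff_X_pow_mul', if_pos le_rfl] at h1
    simp only [Nat.sub_self, PowerSeries.coeff_zero_eq_constantCoeff, map_mul, map_pow] at h1
    exact (mul_ne_zero (pow_ne_zero _ hu) hd0) h1

end chain

section graph

variable {V : Type*} [Fintype V] (G : SimpleGraph V) [Fintype G.Dart]

open Classical in
lemma sum_fst (v : V) (Φ : V → V → PowerSeries ℂ) :
    ∑ e ∈ Finset.univ.filter (fun e : G.Dart => e.fst = v), Φ e.fst e.snd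
      = ∑ w ∈ Finset.univ.filter (fun w => G.Adj v w), Φ v w := by
  refine Finset.sum_bij' (fun e _ => e.snd)
    (fun w hw => ⟨(v, w), (Finset.mem_filter.mp hw).2⟩) ?_ ?_ ?_ ?_ ?_
  · intro e he
    rw [Finset.mem_filter] at he ⊢
    refine ⟨Finset.mem_univ _, ?_⟩
    have := e.adj
    rw [he.2] at this
    exact this
  · intro w hw
    rw [Finset.mem_filter]
    exact ⟨Finset.mem_univ _, rfl⟩
  · intro e he
    rw [Finset.mem_filter] at he
    ext
    · exact he.2.symm
    · rfl
  · intro w hw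
    rfl
  · intro e he
    rw [Finset.mem_filter] at he
    rw [he.2]

open Classical in
omit [Fintype V] in
lemma nb_sum (d : G.Dart) (φ : G.Dart → PowerSeries ℂ) :
    ∑ e, PowerSeries.C (nbMatrix G d e) * φ e
      = ∑ e ∈ Finset.univ.filter (fun e : G.Dart => e.fst = d.snd), φ e - φ d.symm := by
  rw [eq_sub_iff_add_eq, Finset.sum_filter]
  have h1 : φ d.symm = ∑ e, if e = d.symm then φ e else 0 := by
    rw [Finset.sum_ite_eq' Finset.univ d.symm φ]; simp
  rw [h1, ← Finset.sum_add_distrib]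
  apply Finset.sum_congr rfl
  intro e _
  unfold nbMatrix
  by_cases h2 : e.fst = d.snd
  · by_cases h3 : e.snd = d.fst
    · have h4 : e = d.symm := by
        ext
        · exact h2
        · exact h3
      rw [if_neg (by rintro ⟨_, h⟩; exact h h3.symm), if_pos h4, if_pos h2]
      simp
    · have h4 : e ≠ d.symm := by
        rintro rfl
        exact h3 rfl
      rw [if_pos ⟨h2.symm, fun h => h3 h.symm⟩, if_neg h4, if_pos h2]
      simp
  · have h4 : e ≠ d.symm := by
      rintro rfl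
      exact h2 rfl
    rw [if_neg (by rintro ⟨h, _⟩; exact h2 h.symm), if_neg h4, if_neg h2]
    simp

open Classical in
lemma eig_of_vertex (k : ℕ) (h : V → PowerSeries ℂ) (z lam : PowerSeries ℂ) (hl : lam * z = 1)
    (hv : ∀ v, PowerSeries.X ^ k ∣
      z * (∑ w ∈ Finset.univ.filter (fun w => G.Adj v w), (h w - z * h v)) - (1 - z ^ 2) * h v)
    (d : G.Dart) :
    PowerSeries.X ^ k ∣ (∑ e, PowerSeries.C (nbMatrix G d e) * (h e.snd - z * h e.fst))
      - lam * (h d.snd - z * h d.fst) := by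
  rw [nb_sum G d (fun e => h e.snd - z * h e.fst)]
  rw [sum_fst G d.snd (fun v w => h w - z * h v)]
  obtain ⟨r, hr⟩ := hv d.snd
  set S := ∑ w ∈ Finset.univ.filter (fun w => G.Adj d.snd w), (h w - z * h d.snd) with hS
  have h1 : z * S = (1 - z ^ 2) * h d.snd + PowerSeries.X ^ k * r := by
    rw [← hr]; ring
  refine ⟨lam * r, ?_⟩
  have h2 : S = lam * (z * S) := by rw [← mul_assoc, hl, one_mul]
  rw [h2, h1]
  show lam * ((1 - z ^ 2) * h d.snd + PowerSeries.X ^ k * r) - (h d.fst - z * h d.snd) -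
      lam * (h d.snd - z * h d.fst) = PowerSeries.X ^ k * (lam * r)
  have h3 : lam * ((1 - z ^ 2) * h d.snd + PowerSeries.X ^ k * r) - (h d.fst - z * h d.snd) -
      lam * (h d.snd - z * h d.fst) = PowerSeries.X ^ k * (lam * r) + (lam * z - 1) * (h d.fst - z * h d.snd) := by
    ring
  rw [h3, hl]; ring

end graph

/-! ### Transport to `Fin n` -/

section transport

variable {V : Type*} {n : ℕ} (G : SimpleGraph V) (φ : V ↪ Fin n)

/-- darts of `G` and of its image under an injection -/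
noncomputable def dartEquiv : G.Dart ≃ (G.map φ).Dart :=
  Equiv.ofBijective (fun d => ⟨(φ d.fst, φ d.snd), (SimpleGraph.map_adj_apply).mpr d.adj⟩) (by
    constructor
    · intro d e h
      have h1 := congrArg (fun x : (G.map φ).Dart => x.toProd.1) h
      have h2 := congrArg (fun x : (G.map φ).Dart => x.toProd.2) h
      ext
      · exact φ.injective h1
      · exact φ.injective h2
    · rintro ⟨⟨a, b⟩, hab⟩
      obtain ⟨u, v, huv, rfl, rfl⟩ := (SimpleGraph.map_adj _ _ _ _).mp hab
      exact ⟨⟨(u, v), huv⟩, rfl⟩)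

lemma nb_dartEquiv (d e : G.Dart) :
    nbMatrix (G.map φ) (dartEquiv G φ d) (dartEquiv G φ e) = nbMatrix G d e := by
  unfold nbMatrix
  have h1 : ((dartEquiv G φ d).snd = (dartEquiv G φ e).fst ∧
      (dartEquiv G φ d).fst ≠ (dartEquiv G φ e).snd) ↔ (d.snd = e.fst ∧ d.fst ≠ e.snd) := by
    show (φ d.snd = φ e.fst ∧ φ d.fst ≠ φ e.snd) ↔ _
    rw [φ.injective.eq_iff, φ.injective.ne_iff]
  by_cases hc : d.snd = e.fst ∧ d.fst ≠ e.snd
  · rw [if_pos hc, if_pos (h1.mpr hc)]
  · rw [if_neg hc, if_neg (fun h => hc (h1.mp h))]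

lemma exists_adj_map {u v : V} (h : G.Adj u v) : ∃ a b, (G.map φ).Adj a b :=
  ⟨φ u, φ v, (SimpleGraph.map_adj_apply).mpr h⟩

lemma block_reindex {D D' : Type*} [Fintype D] [DecidableEq D] [Fintype D'] [DecidableEq D']
    (e : D ≃ D') (M : Matrix D D ℂ) (M' : Matrix D' D' ℂ) (h : ∀ a b, M' (e a) (e b) = M a b)
    (μ : ℂ) (s : ℕ) (hb : IsJordanBlockSize M μ s) : IsJordanBlockSize M' μ s := by
  have hM : M' = Matrix.reindexAlgEquiv ℂ ℂ e M := by
    ext a b
    have := h (e.symm a) (e.symm b)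
    rw [Equiv.apply_symm_apply, Equiv.apply_symm_apply] at this
    rw [this]
    rfl
  have hs : M' - Matrix.scalar D' μ = Matrix.reindexAlgEquiv ℂ ℂ e (M - Matrix.scalar D μ) := by
    rw [map_sub, ← hM]
    congr 1
    have h1 : Matrix.scalar D μ = algebraMap ℂ (Matrix D D ℂ) μ := rfl
    have h2 : Matrix.scalar D' μ = algebraMap ℂ (Matrix D' D' ℂ) μ := rfl
    rw [h1, h2, AlgEquiv.commutes]
  have hr : ∀ j, ((M' - Matrix.scalar D' μ) ^ j).rank = ((M - Matrix.scalar D μ) ^ j).rank := by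
    intro j
    rw [hs, ← map_pow]
    exact Matrix.rank_reindex _ _ _
  refine ⟨hb.1, ?_⟩
  rw [hr, hr, hr]
  exact hb.2

lemma block_inst {D : Type*} (i1 i2 : Fintype D) (j1 j2 : DecidableEq D) (M : Matrix D D ℂ)
    (μ : ℂ) (s : ℕ) (h : @IsJordanBlockSize D i1 j1 M μ s) : @IsJordanBlockSize D i2 j2 M μ s := by
  have h1 : i1 = i2 := Subsingleton.elim _ _
  have h2 : j1 = j2 := Subsingleton.elim _ _
  subst h1
  subst h2
  exact h

lemma noLeaves_map (h : NoLeaves G) : NoLeaves (G.map φ) := by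
  intro w
  by_cases hw : ∃ v, φ v = w
  · obtain ⟨v, rfl⟩ := hw
    have h1 : (G.map φ).neighborSet (φ v) = φ '' (G.neighborSet v) := by
      ext x
      constructor
      · intro hx
        obtain ⟨a, b, hab, ha, rfl⟩ := (SimpleGraph.map_adj _ _ _ _).mp hx
        have := φ.injective ha
        subst this
        exact ⟨b, hab, rfl⟩
      · rintro ⟨b, hb, rfl⟩
        exact (SimpleGraph.map_adj_apply).mpr hb
    rw [h1, Set.ncard_image_of_injective _ φ.injective]
    exact h v
  · have h1 : (G.map φ).neighborSet w = ∅ := by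
      ext x
      simp only [Set.mem_empty_iff_false, iff_false]
      intro hx
      obtain ⟨a, b, _, ha, _⟩ := (SimpleGraph.map_adj _ _ _ _).mp hx
      exact hw ⟨a, ha⟩
    rw [h1]
    simp

end transport

/-! ### The upper bound `f n ≤ 2 n + 1` -/

section upper

variable {V : Type*} [Fintype V] (G : SimpleGraph V) [Fintype G.Dart] [DecidableEq G.Dart]

open Classical in
/-- `S d v = 1` if `d` starts at `v` -/
noncomputable def headM : Matrix G.Dart V ℂ := fun d v => if d.snd = v then 1 else 0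

open Classical in
noncomputable def tailM : Matrix V G.Dart ℂ := fun v e => if e.fst = v then 1 else 0

/-- the reversal -/
def revM : Matrix G.Dart G.Dart ℂ := fun d e => if e = d.symm then 1 else 0

omit [Fintype G.Dart] in
lemma nb_eq : nbMatrix G = headM G * tailM G - revM G := by
  classical
  ext d e
  rw [Matrix.sub_apply, Matrix.mul_apply]
  unfold nbMatrix headM tailM revM
  have h1 : ∑ v, (if d.snd = v then (1:ℂ) else 0) * (if e.fst = v then 1 else 0)
      = if e.fst = d.snd then 1 else 0 := by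
    rw [Finset.sum_eq_single d.snd]
    · simp
    · intro b _ hb
      rw [if_neg (Ne.symm hb), zero_mul]
    · intro h; exact absurd (Finset.mem_univ _) h
  rw [h1]
  by_cases h2 : e.fst = d.snd
  · by_cases h3 : e.snd = d.fst
    · have h4 : e = d.symm := by
        ext
        · exact h2
        · exact h3
      rw [if_neg (by rintro ⟨_, h⟩; exact h h3.symm), if_pos h4, if_pos h2]
      simp
    · have h4 : e ≠ d.symm := by
        rintro rfl
        exact h3 rfl
      rw [if_pos ⟨h2.symm, fun h => h3 h.symm⟩, if_neg h4, if_pos h2]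
      simp
  · have h4 : e ≠ d.symm := by
      rintro rfl
      exact h2 rfl
    rw [if_neg (by rintro ⟨h, _⟩; exact h2 h.symm), if_neg h4, if_neg h2]
    simp

omit [Fintype V] in
lemma rev_sq : revM G * revM G = 1 := by
  ext d e
  rw [Matrix.mul_apply, Finset.sum_eq_single d.symm]
  · unfold revM
    rw [if_pos rfl, SimpleGraph.Dart.symm_symm, one_mul, Matrix.one_apply]
    by_cases h : d = e
    · rw [if_pos h.symm, if_pos h]
    · rw [if_neg (fun h' => h h'.symm), if_neg h]
  · intro b _ hb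
    unfold revM
    rw [if_neg hb, zero_mul]
  · intro h; exact absurd (Finset.mem_univ _) h

lemma rank_sq_sub_one : (nbMatrix G * nbMatrix G - 1).rank ≤ 2 * Fintype.card V := by
  have h1 : nbMatrix G * nbMatrix G - 1 =
      headM G * (tailM G * nbMatrix G) - (revM G * headM G) * tailM G := by
    have h2 : nbMatrix G * nbMatrix G = (headM G * tailM G - revM G) * nbMatrix G := by
      rw [← nb_eq]
    rw [h2, Matrix.sub_mul, Matrix.mul_assoc]
    have h3 : revM G * nbMatrix G = (revM G * headM G) * tailM G - 1 := by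
      rw [nb_eq, Matrix.mul_sub, rev_sq, Matrix.mul_assoc]
    rw [h3]
    abel
  rw [h1]
  have h4 : (headM G * (tailM G * nbMatrix G)).rank ≤ Fintype.card V :=
    le_trans (Matrix.rank_mul_le_left _ _) (Matrix.rank_le_card_width _)
  have h5 : ((revM G * headM G) * tailM G).rank ≤ Fintype.card V :=
    le_trans (Matrix.rank_mul_le_left _ _) (Matrix.rank_le_card_width _)
  have h6 : (headM G * (tailM G * nbMatrix G) - (revM G * headM G) * tailM G).rank
      ≤ (headM G * (tailM G * nbMatrix G)).rank + ((revM G * headM G) * tailM G).rank := by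
    unfold Matrix.rank
    have h7 : LinearMap.range
        (headM G * (tailM G * nbMatrix G) - (revM G * headM G) * tailM G).mulVecLin ≤
        LinearMap.range (headM G * (tailM G * nbMatrix G)).mulVecLin ⊔
        LinearMap.range ((revM G * headM G) * tailM G).mulVecLin := by
      rintro _ ⟨x, rfl⟩
      rw [Matrix.mulVecLin_apply, Matrix.sub_mulVec]
      exact Submodule.sub_mem _ (Submodule.mem_sup_left ⟨x, rfl⟩)
        (Submodule.mem_sup_right ⟨x, rfl⟩)
    exact le_trans (Submodule.finrank_mono h7) (Submodule.finrank_add_le_finrank_add_finrank _ _)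
  omega

lemma le_finrank_of_pow {P : Type*} [AddCommGroup P] [Module ℂ P] [FiniteDimensional ℂ P]
    (g : Module.End ℂ P) (y : P) (t : ℕ) (h0 : (g ^ t) y = 0)
    (h1 : (g ^ (t - 1)) y ≠ 0) : t ≤ Module.finrank ℂ P := by
  by_contra hcon
  push Not at hcon
  have e1 := Module.End.ker_pow_eq_ker_pow_finrank_of_le (f := g) (m := t - 1) (by omega)
  have e2 := Module.End.ker_pow_eq_ker_pow_finrank_of_le (f := g) (m := t) (by omega)
  have h2 : y ∈ LinearMap.ker (g ^ t) := h0
  rw [e2, ← e1] at h2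
  exact h1 h2

lemma le_rank_of_pow {D : Type*} [Fintype D] [DecidableEq D] (A N : Matrix D D ℂ)
    (hAN : A * N = N * A) (x : D → ℂ) (t : ℕ) (h0 : (N ^ t).mulVec (A.mulVec x) = 0)
    (h1 : (N ^ (t - 1)).mulVec (A.mulVec x) ≠ 0) : t ≤ A.rank := by
  have hinv : ∀ v ∈ LinearMap.range A.mulVecLin, N.mulVecLin v ∈ LinearMap.range A.mulVecLin := by
    rintro _ ⟨w, rfl⟩
    refine ⟨N.mulVecLin w, ?_⟩
    simp only [Matrix.mulVecLin_apply, Matrix.mulVec_mulVec, hAN]
  have hp : ∀ (j : ℕ) (v : LinearMap.range A.mulVecLin),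
      (((N.mulVecLin.restrict hinv : Module.End ℂ (LinearMap.range A.mulVecLin)) ^ j) v : D → ℂ)
        = (N ^ j).mulVec (v : D → ℂ) := by
    intro j
    induction j with
    | zero => intro v; simp
    | succ j ih =>
      intro v
      rw [pow_succ', Module.End.mul_apply, LinearMap.coe_restrict_apply, ih, pow_succ',
        ← Matrix.mulVec_mulVec, Matrix.mulVecLin_apply]
  refine le_finrank_of_pow (N.mulVecLin.restrict hinv) ⟨A.mulVec x, ⟨x, rfl⟩⟩ t ?_ ?_
  · apply Subtype.ext
    rw [hp]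
    exact h0
  · intro h
    apply h1
    rw [← hp (t - 1) ⟨A.mulVec x, ⟨x, rfl⟩⟩, h]
    rfl

lemma blockSize_le_rank {D : Type*} [Fintype D] [DecidableEq D] (B : Matrix D D ℂ) (μ : ℂ) (s : ℕ)
    (h : IsJordanBlockSize B μ s) : s ≤ (B * B - 1).rank + 1 := by
  obtain ⟨hs, hr⟩ := h
  set N := B - Matrix.scalar D μ with hN
  have hker : ∀ j, LinearMap.ker (N ^ j).mulVecLin ≤ LinearMap.ker (N ^ (j + 1)).mulVecLin := by
    intro j v hv
    rw [LinearMap.mem_ker, Matrix.mulVecLin_apply] at hv ⊢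
    rw [pow_succ', ← Matrix.mulVec_mulVec, hv, Matrix.mulVec_zero]
  have hrn : ∀ j, (N ^ j).rank + Module.finrank ℂ (LinearMap.ker (N ^ j).mulVecLin)
      = Module.finrank ℂ (D → ℂ) := fun j => LinearMap.finrank_range_add_finrank_ker _
  have h3 : ∃ x, (N ^ s).mulVec x = 0 ∧ (N ^ (s - 1)).mulVec x ≠ 0 := by
    by_contra hcon
    push Not at hcon
    have h4 : LinearMap.ker (N ^ s).mulVecLin ≤ LinearMap.ker (N ^ (s - 1)).mulVecLin := by
      intro v hv
      rw [LinearMap.mem_ker, Matrix.mulVecLin_apply] at hv ⊢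
      exact hcon v hv
    have h5 := Submodule.finrank_mono h4
    have h6 := Submodule.finrank_mono (hker s)
    have h7 := hrn s
    have h8 := hrn (s - 1)
    have h9 := hrn (s + 1)
    omega
  obtain ⟨x, hx0, hx1⟩ := h3
  have hB : B = N + Matrix.scalar D μ := by rw [hN]; abel
  have hsc : ∀ (c : ℂ) (v : D → ℂ), (Matrix.scalar D c).mulVec v = c • v := by
    intro c v
    funext d
    rw [Matrix.scalar_apply, Matrix.mulVec_diagonal]
    rfl
  have hcomm : ∀ c : ℂ, Matrix.scalar D c * N = N * Matrix.scalar D c := by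
    intro c
    exact (Matrix.scalar_commute c (fun r => Commute.all _ _) N).eq
  have hA : B * B - 1 = N * N + Matrix.scalar D (2 * μ) * N + Matrix.scalar D (μ ^ 2 - 1) := by
    have h1 : (Matrix.scalar D (2 * μ) : Matrix D D ℂ) = Matrix.scalar D μ + Matrix.scalar D μ := by
      rw [← map_add]; congr 1; ring
    have h2 : (Matrix.scalar D (μ ^ 2 - 1) : Matrix D D ℂ) = Matrix.scalar D μ * Matrix.scalar D μ - 1 := by
      rw [map_sub, map_pow, map_one, pow_two]
    rw [h1, h2, hB]
    rw [add_mul, mul_add, mul_add, add_mul]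
    have h3 := hcomm μ
    rw [← h3]
    abel
  have hAN : (B * B - 1) * N = N * (B * B - 1) := by
    rw [hA]
    have h1 := hcomm (2 * μ)
    have h2 := hcomm (μ ^ 2 - 1)
    rw [add_mul, add_mul, mul_add, mul_add, h2, ← mul_assoc N N N, ← mul_assoc N (Matrix.scalar D (2 * μ)) N,
      h1]
  have hAj : ∀ j, (N ^ j).mulVec ((B * B - 1).mulVec x)
      = (N ^ (j + 2)).mulVec x + (2 * μ) • (N ^ (j + 1)).mulVec x + (μ ^ 2 - 1) • (N ^ j).mulVec x := by
    intro j
    rw [hA, Matrix.add_mulVec, Matrix.add_mulVec, Matrix.mulVec_add, Matrix.mulVec_add, hsc,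
      ← Matrix.mulVec_mulVec x (Matrix.scalar D (2 * μ)) N, hsc, Matrix.mulVec_smul, Matrix.mulVec_smul,
      Matrix.mulVec_mulVec, Matrix.mulVec_mulVec]
    congr 2
    rw [pow_add, pow_two]
  have hz : ∀ j, s ≤ j → (N ^ j).mulVec x = 0 := by
    intro j hj
    obtain ⟨m, rfl⟩ := Nat.exists_eq_add_of_le hj
    rw [add_comm, pow_add, ← Matrix.mulVec_mulVec, hx0, Matrix.mulVec_zero]
  by_cases hμ : μ ^ 2 - 1 = 0
  · by_cases hs1 : s = 1
    · omega
    have hμ0 : μ ≠ 0 := by
      rintro rfl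
      norm_num at hμ
    have h1 : s - 1 ≤ (B * B - 1).rank := by
      refine le_rank_of_pow (B * B - 1) N hAN x (s - 1) ?_ ?_
      · rw [hAj, hμ, hz (s - 1 + 2) (by omega), hz (s - 1 + 1) (by omega)]
        simp
      · rw [hAj, hμ, hz (s - 1 - 1 + 2) (by omega), zero_smul, add_zero, zero_add]
        have h2 : s - 1 - 1 + 1 = s - 1 := by omega
        rw [h2]
        exact smul_ne_zero (mul_ne_zero two_ne_zero hμ0) hx1
    omega
  · have h1 : s ≤ (B * B - 1).rank := by
      refine le_rank_of_pow (B * B - 1) N hAN x s ?_ ?_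
      · rw [hAj, hz (s + 2) (by omega), hz (s + 1) (by omega), hx0]
        simp
      · rw [hAj, hz (s - 1 + 2) (by omega), hz (s - 1 + 1) (by omega), smul_zero, add_zero, zero_add]
        exact smul_ne_zero hμ hx1
    omega

end upper

lemma blockSizes_le (n s : ℕ) (hs : s ∈ blockSizes n) : s ≤ 2 * n + 1 := by
  classical
  obtain ⟨G, _, _, μ, hs⟩ := hs
  have h1 := blockSize_le_rank _ _ _ hs
  have h2 := rank_sq_sub_one G
  rw [Fintype.card_fin] at h2
  have h3 : (nbMatrix G * nbMatrix G - 1).rank ≤ 2 * n := by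
    convert h2
  refine le_trans h1 ?_
  have h4 := Nat.add_le_add_right h3 1
  convert h4

lemma blockSizes_bddAbove (n : ℕ) : BddAbove (blockSizes n) := ⟨2 * n + 1, blockSizes_le n⟩

lemma f_le (n : ℕ) : f n ≤ 2 * n + 1 := by
  unfold f
  rcases (blockSizes n).eq_empty_or_nonempty with h | h
  · rw [h]; simp
  · exact csSup_le h (blockSizes_le n)

/-! ### The algebra of the chain -/

section algebra

open PowerSeries

/-- a primitive eighth root of unity -/
noncomputable def om : ℂ := Complex.exp (Real.pi * Complex.I / 4)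

lemma om4 : om ^ 4 = -1 := by
  unfold om
  rw [← Complex.exp_nat_mul, ← Complex.exp_pi_mul_I]
  congr 1
  push_cast
  ring

lemma om8 : om ^ 8 = 1 := by
  have : om ^ 8 = (om ^ 4) ^ 2 := by ring
  rw [this, om4]; norm_num

lemma om_ne : (1 : ℂ) + om ^ 2 ≠ 0 := by
  intro h
  have h1 : om ^ 2 = -1 := by linear_combination h
  have h2 : om ^ 4 = (om ^ 2) ^ 2 := by ring
  rw [h1, om4] at h2
  norm_num at h2

lemma om_ne' : om ≠ 0 := by
  intro h
  have := om4
  rw [h] at this
  norm_num at this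

/-- the value of `1/λ` -/
noncomputable def z0 : ℂ := (om + om ^ 3) / 2

lemma z0_sq : z0 ^ 2 = -1 / 2 := by
  unfold z0
  linear_combination ((1 : ℂ) / 4 * om ^ 2 + 1/2) * om4

lemma z0_ne : z0 ≠ 0 := by
  intro h
  have := z0_sq
  rw [h] at this
  norm_num at this

noncomputable def W : PowerSeries ℂ := C om

lemma W4 : W ^ 4 = -1 := by
  unfold W
  rw [← map_pow, om4, map_neg, map_one]

noncomputable def zz : PowerSeries ℂ := C z0 + X

lemma cz : constantCoeff zz = z0 := by simp [zz]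

lemma cW : constantCoeff W = om := by simp [W]

noncomputable def gam : PowerSeries ℂ := zz * ((1 + zz ^ 2) * (1 + W ^ 2) - zz * W ^ 3)
noncomputable def bet : PowerSeries ℂ := zz * ((1 + zz ^ 2) * (1 - W ^ 2) + zz * W)
noncomputable def del : PowerSeries ℂ := (1 + 2 * zz ^ 2) * (1 + 3 * zz ^ 2)

lemma cgam : constantCoeff gam ≠ 0 := by
  unfold gam
  simp only [map_mul, map_sub, map_add, map_pow, map_one, cz, cW]
  have h1 : (1 + z0 ^ 2) * (1 + om ^ 2) - z0 * om ^ 3 = 1 + om ^ 2 := by
    rw [z0_sq]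
    unfold z0
    linear_combination (-(1 : ℂ) / 2 - 1 / 2 * om ^ 2) * om4
  rw [h1]
  exact mul_ne_zero z0_ne om_ne

lemma Cz0_sq : (C z0 : PowerSeries ℂ) ^ 2 = C (-1/2) := by
  rw [← map_pow, z0_sq]

lemma X_dvd_del : (X : PowerSeries ℂ) ∣ del := by
  rw [X_dvd_iff]
  unfold del
  simp only [map_mul, map_add, map_pow, map_one, cz]
  have h2 : constantCoeff (2 : PowerSeries ℂ) = 2 := map_ofNat _ 2
  rw [h2, z0_sq]
  norm_num

lemma X_dvd_bet : (X : PowerSeries ℂ) ∣ bet := by
  rw [X_dvd_iff]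
  unfold bet
  simp only [map_mul, map_add, map_sub, map_pow, map_one, cz, cW]
  have h1 : (1 + z0 ^ 2) * (1 - om ^ 2) + z0 * om = 0 := by
    rw [z0_sq]
    unfold z0
    linear_combination (1 : ℂ) / 2 * om4
  rw [h1, mul_zero]

/-- the values on the main vertices, indexed by the distance from the right end -/
noncomputable def w : ℕ → PowerSeries ℂ
  | 0 => 1
  | 1 => gam⁻¹ * (1 + 3 * zz ^ 2 + 3 * zz ^ 4)
  | (n + 2) => gam⁻¹ * (del * w (n + 1) - bet * w n)

lemma gam_w1 : gam * w 1 = (1 + 3 * zz ^ 2 + 3 * zz ^ 4) * w 0 := by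
  simp only [w]
  rw [← mul_assoc, PowerSeries.mul_inv_cancel _ cgam]; ring

lemma gam_w (n : ℕ) : gam * w (n + 2) = del * w (n + 1) - bet * w n := by
  simp only [w]
  rw [← mul_assoc, PowerSeries.mul_inv_cancel _ cgam, one_mul]

lemma w_dvd (j : ℕ) : (X : PowerSeries ℂ) ^ j ∣ w (2 * j) ∧ (X : PowerSeries ℂ) ^ j ∣ w (2 * j + 1) := by
  induction j with
  | zero => simp
  | succ j ih =>
    have h1 : (X : PowerSeries ℂ) ^ (j + 1) ∣ w (2 * j + 2) := by
      show _ ∣ gam⁻¹ * (del * w (2 * j + 1) - bet * w (2 * j))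
      apply Dvd.dvd.mul_left
      rw [pow_succ']
      exact dvd_sub (mul_dvd_mul X_dvd_del ih.2) (mul_dvd_mul X_dvd_bet ih.1)
    refine ⟨h1, ?_⟩
    show _ ∣ gam⁻¹ * (del * w (2 * j + 2) - bet * w (2 * j + 1))
    apply Dvd.dvd.mul_left
    refine dvd_sub (Dvd.dvd.mul_left h1 _) ?_
    rw [pow_succ']
    exact mul_dvd_mul X_dvd_bet ih.2

lemma w_dvd' (k j : ℕ) (h : 2 * k ≤ j) : (X : PowerSeries ℂ) ^ k ∣ w j := by
  have h1 := w_dvd (j / 2)
  have h2 : (X : PowerSeries ℂ) ^ k ∣ (X : PowerSeries ℂ) ^ (j / 2) := pow_dvd_pow _ (by omega)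
  rcases Nat.even_or_odd' j with ⟨m, hm | hm⟩
  · have h3 : 2 * (j / 2) = j := by omega
    rw [h3] at h1
    exact h2.trans h1.1
  · have h3 : 2 * (j / 2) + 1 = j := by omega
    rw [h3] at h1
    exact h2.trans h1.2

noncomputable def ee : PowerSeries ℂ := (1 + zz ^ 2)⁻¹

lemma ee_mul : (1 + zz ^ 2) * ee = 1 := by
  unfold ee
  apply PowerSeries.mul_inv_cancel
  simp only [map_add, map_pow, map_one, cz, z0_sq]
  norm_num

noncomputable def lam : PowerSeries ℂ := zz⁻¹

lemma lam_mul : lam * zz = 1 := by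
  unfold lam
  apply PowerSeries.inv_mul_cancel
  rw [cz]; exact z0_ne

lemma lam_eq : lam = C (z0⁻¹) + X * (- C (z0⁻¹) * lam) := by
  have h1 := lam_mul
  have h2 : (C (z0⁻¹) : PowerSeries ℂ) * C z0 = 1 := by
    rw [← map_mul, inv_mul_cancel₀ z0_ne, map_one]
  have h3 : lam * (C z0 + X) = 1 := h1
  linear_combination (C z0⁻¹ : PowerSeries ℂ) * h3 - lam * h2

lemma clam : constantCoeff lam = z0⁻¹ := by
  have h1 := congrArg constantCoeff lam_mul
  rw [map_mul, cz, map_one] at h1
  exact eq_inv_of_mul_eq_one_left h1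

end algebra

/-! ### The chain graph -/

section chaingraph

/-- A cell: eight main vertices, eight middle vertices and one hub. -/
abbrev Cell : Type := ZMod 8 ⊕ ZMod 8 ⊕ Unit

/-- adjacency inside a cell -/
def R0 : Cell → Cell → Prop
  | Sum.inl g, Sum.inr (Sum.inl h) => h = g
  | Sum.inr (Sum.inl g), Sum.inl h => h = g
  | Sum.inl _, Sum.inr (Sum.inr _) => True
  | Sum.inr (Sum.inr _), Sum.inl _ => True
  | _, _ => False

/-- adjacency from a cell to the next one -/
def R1 : Cell → Cell → Prop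
  | Sum.inl g, Sum.inl h => h = g ∨ h = g + 6
  | Sum.inl g, Sum.inr (Sum.inl h) => h = g + 1
  | _, _ => False

/-- extra edges in the cell `0` -/
def R2 : Cell → Cell → Prop
  | Sum.inr (Sum.inl g), Sum.inr (Sum.inl h) => h = g + 1 ∨ g = h + 1
  | _, _ => False

lemma R0_symm (a b : Cell) : R0 a b → R0 b a := by
  rcases a with g | g | g <;> rcases b with h | h | h <;> simp [R0]
  · exact fun h => h.symm
  · exact fun h => h.symm

lemma R0_irrefl (a : Cell) : ¬ R0 a a := by
  rcases a with g | g | g <;> simp [R0]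

lemma R2_symm (a b : Cell) : R2 a b → R2 b a := by
  rcases a with g | g | g <;> rcases b with h | h | h <;> simp [R2] <;> tauto

lemma R2_irrefl (a : Cell) : ¬ R2 a a := by
  rcases a with g | g | g
  · simp [R2]
  · simp [R2]
    decide
  · simp [R2]

/-- the chain of `N` cells -/
def chainG (N : ℕ) : SimpleGraph (Fin N × Cell) where
  Adj u v := ((u.1 : ℕ) = v.1 ∧ R0 u.2 v.2) ∨ ((u.1 : ℕ) + 1 = v.1 ∧ R1 u.2 v.2) ∨
    ((v.1 : ℕ) + 1 = u.1 ∧ R1 v.2 u.2) ∨ (((u.1 : ℕ) = 0 ∧ (v.1 : ℕ) = 0) ∧ R2 u.2 v.2)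
  symm := ⟨by
    rintro u v (h | h | h | h)
    · exact Or.inl ⟨h.1.symm, R0_symm _ _ h.2⟩
    · exact Or.inr (Or.inr (Or.inl h))
    · exact Or.inr (Or.inl h)
    · exact Or.inr (Or.inr (Or.inr ⟨⟨h.1.2, h.1.1⟩, R2_symm _ _ h.2⟩))⟩
  loopless := ⟨by
    rintro u (h | h | h | h)
    · exact R0_irrefl _ h.2
    · omega
    · omega
    · exact R2_irrefl _ h.2⟩

open Classical in
/-- sum over the neighbours -/
lemma nsum (N : ℕ) (v : Fin N × Cell) (Φ : ℕ → Cell → PowerSeries ℂ) :
    ∑ w ∈ Finset.univ.filter (fun w => (chainG N).Adj v w), Φ w.1 w.2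
      = (∑ b, if R0 v.2 b then Φ v.1 b else 0)
        + (if (v.1 : ℕ) + 1 < N then ∑ b, (if R1 v.2 b then Φ (v.1 + 1) b else 0) else 0)
        + (if 1 ≤ (v.1 : ℕ) then ∑ b, (if R1 b v.2 then Φ (v.1 - 1) b else 0) else 0)
        + (if (v.1 : ℕ) = 0 then ∑ b, (if R2 v.2 b then Φ 0 b else 0) else 0) := by
  obtain ⟨i, a⟩ := v
  rw [Finset.sum_filter, Fintype.sum_prod_type]
  have hi := i.2
  -- pointwise decomposition
  have h1 : ∀ (j : Fin N), ∑ b, (if (chainG N).Adj (i, a) (j, b) then Φ j b else 0)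
      = (fun j : ℕ => (if (i : ℕ) = j then ∑ b, (if R0 a b then Φ j b else 0) else 0)
        + (if (i : ℕ) + 1 = j then ∑ b, (if R1 a b then Φ j b else 0) else 0)
        + (if j + 1 = (i : ℕ) then ∑ b, (if R1 b a then Φ j b else 0) else 0)
        + (if (i : ℕ) = 0 ∧ j = 0 then ∑ b, (if R2 a b then Φ j b else 0) else 0)) j := by
    intro j
    have hadj : ∀ b, (chainG N).Adj (i, a) (j, b) ↔ (((i : ℕ) = j ∧ R0 a b) ∨ ((i : ℕ) + 1 = j ∧ R1 a b) ∨
      ((j : ℕ) + 1 = i ∧ R1 b a) ∨ (((i : ℕ) = 0 ∧ (j : ℕ) = 0) ∧ R2 a b)) := fun b => Iff.rfl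
    have hdisj : ∀ b, ¬ (R0 a b ∧ R2 a b) := by
      intro b
      rcases a with g | g | g <;> rcases b with h | h | h <;> simp [R0, R2]
    simp only [hadj]
    by_cases c1 : (i : ℕ) = j
    · have c2 : ¬ ((i : ℕ) + 1 = j) := by omega
      have c3 : ¬ ((j : ℕ) + 1 = i) := by omega
      by_cases c4 : (i : ℕ) = 0 ∧ (j : ℕ) = 0
      · simp only [c1, c2, c3, c4, if_true, if_false, true_and, false_and, and_self]
        have c2' : ¬ ((0 : ℕ) + 1 = 0) := by omega
        simp only [c2', if_false, false_and, false_or, add_zero, if_true, true_and]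
        rw [← Finset.sum_add_distrib]
        apply Finset.sum_congr rfl
        intro b _
        have := hdisj b
        by_cases e1 : R0 a b
        · have e2 : ¬ R2 a b := fun h => this ⟨e1, h⟩
          simp [e1, e2]
        · simp [e1]
      · simp only [c2, c3, c4, if_false, false_and, false_or, or_false, add_zero]
        simp only [c1, true_and, if_true]
    · have c4 : ¬ ((i : ℕ) = 0 ∧ (j : ℕ) = 0) := by omega
      by_cases c2 : (i : ℕ) + 1 = j
      · have c3 : ¬ ((j : ℕ) + 1 = i) := by omega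
        simp only [c1, c2, c3, c4, if_false, if_true, false_and, false_or, or_false, add_zero, zero_add,
          true_and]
      · simp only [c1, c2, c4, if_false, false_and, false_or, or_false, add_zero, zero_add]
        by_cases c3 : (j : ℕ) + 1 = i
        · simp only [c3, true_and, if_true]
        · simp only [c3, false_and, if_false, Finset.sum_const_zero]
  simp only [h1]
  rw [Fin.sum_univ_eq_sum_range (fun j : ℕ => (if (i : ℕ) = j then ∑ b, (if R0 a b then Φ j b else 0) else 0)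
        + (if (i : ℕ) + 1 = j then ∑ b, (if R1 a b then Φ j b else 0) else 0)
        + (if j + 1 = (i : ℕ) then ∑ b, (if R1 b a then Φ j b else 0) else 0)
        + (if (i : ℕ) = 0 ∧ j = 0 then ∑ b, (if R2 a b then Φ j b else 0) else 0)) N]
  rw [Finset.sum_add_distrib, Finset.sum_add_distrib, Finset.sum_add_distrib]
  congr 1
  congr 1
  congr 1
  · rw [Finset.sum_ite_eq]
    rw [if_pos (Finset.mem_range.mpr hi)]
  · rw [Finset.sum_ite_eq]
    simp only [Finset.mem_range]
  · by_cases c : 1 ≤ (i : ℕ)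
    · rw [if_pos c]
      have : ∀ j : ℕ, (j + 1 = (i : ℕ)) ↔ (j = (i : ℕ) - 1) := by intro j; omega
      simp only [this]
      rw [Finset.sum_ite_eq', if_pos (Finset.mem_range.mpr (by omega))]
    · rw [if_neg c]
      apply Finset.sum_eq_zero
      intro j _
      rw [if_neg (by omega)]
  · by_cases c : (i : ℕ) = 0
    · rw [if_pos c]
      simp only [c, true_and]
      rw [Finset.sum_ite_eq', if_pos (Finset.mem_range.mpr (by omega))]
    · rw [if_neg c]
      apply Finset.sum_eq_zero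
      intro j _
      rw [if_neg (by omega)]

/-! sums over a cell -/

open Classical in
lemma s0_main (g : ZMod 8) (φ : Cell → PowerSeries ℂ) :
    (∑ b, if R0 (Sum.inl g) b then φ b else 0) = φ (Sum.inr (Sum.inl g)) + φ (Sum.inr (Sum.inr ())) := by
  rw [Fintype.sum_sum_type, Fintype.sum_sum_type]
  have h1 : ∀ x : ZMod 8, R0 (Sum.inl g) (Sum.inl x) ↔ False := fun _ => Iff.rfl
  have h2 : ∀ x : ZMod 8, R0 (Sum.inl g) (Sum.inr (Sum.inl x)) ↔ x = g := fun _ => Iff.rfl
  have h3 : ∀ x : Unit, R0 (Sum.inl g) (Sum.inr (Sum.inr x)) ↔ True := fun _ => Iff.rfl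
  simp only [h1, h2, h3, if_false, if_true, Finset.sum_const_zero, zero_add, Finset.sum_ite_eq',
    Finset.mem_univ]
  simp

open Classical in
lemma s0_mid (g : ZMod 8) (φ : Cell → PowerSeries ℂ) :
    (∑ b, if R0 (Sum.inr (Sum.inl g)) b then φ b else 0) = φ (Sum.inl g) := by
  rw [Fintype.sum_sum_type, Fintype.sum_sum_type]
  have h1 : ∀ x : ZMod 8, R0 (Sum.inr (Sum.inl g)) (Sum.inl x) ↔ x = g := fun _ => Iff.rfl
  have h2 : ∀ x : ZMod 8, R0 (Sum.inr (Sum.inl g)) (Sum.inr (Sum.inl x)) ↔ False := fun _ => Iff.rfl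
  have h3 : ∀ x : Unit, R0 (Sum.inr (Sum.inl g)) (Sum.inr (Sum.inr x)) ↔ False := fun _ => Iff.rfl
  simp only [h1, h2, h3, if_false, if_true, Finset.sum_const_zero, zero_add, Finset.sum_ite_eq',
    Finset.mem_univ, add_zero]

open Classical in
lemma s0_hub (φ : Cell → PowerSeries ℂ) :
    (∑ b, if R0 (Sum.inr (Sum.inr ())) b then φ b else 0) = ∑ g : ZMod 8, φ (Sum.inl g) := by
  rw [Fintype.sum_sum_type, Fintype.sum_sum_type]
  have h1 : ∀ x : ZMod 8, R0 (Sum.inr (Sum.inr ())) (Sum.inl x) ↔ True := fun _ => Iff.rfl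
  have h2 : ∀ x : ZMod 8, R0 (Sum.inr (Sum.inr ())) (Sum.inr (Sum.inl x)) ↔ False := fun _ => Iff.rfl
  have h3 : ∀ x : Unit, R0 (Sum.inr (Sum.inr ())) (Sum.inr (Sum.inr x)) ↔ False := fun _ => Iff.rfl
  simp only [h1, h2, h3, if_false, if_true, Finset.sum_const_zero, add_zero]

lemma ne6 (g : ZMod 8) : g ≠ g + 6 := by
  intro h
  have h1 : (6 : ZMod 8) = 0 := by
    have := congrArg (fun x => x - g) h
    simpa using this.symm
  exact absurd h1 (by decide)

lemma ne2 (g : ZMod 8) : g ≠ g + 2 := by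
  intro h
  have h1 : (2 : ZMod 8) = 0 := by
    have := congrArg (fun x => x - g) h
    simpa using this.symm
  exact absurd h1 (by decide)

lemma sum_or {α : Type*} [Fintype α] [DecidableEq α] (a b : α) (hab : a ≠ b) (φ : α → PowerSeries ℂ) :
    (∑ x, if x = a ∨ x = b then φ x else 0) = φ a + φ b := by
  have h1 : ∀ x, (if x = a ∨ x = b then φ x else 0) = (if x = a then φ x else 0) + (if x = b then φ x else 0) := by
    intro x
    by_cases c1 : x = a
    · subst c1
      simp [hab]
    · by_cases c2 : x = b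
      · subst c2
        simp [Ne.symm hab]
      · simp [c1, c2]
  simp only [h1]
  rw [Finset.sum_add_distrib, Finset.sum_ite_eq', Finset.sum_ite_eq', if_pos (Finset.mem_univ _),
    if_pos (Finset.mem_univ _)]

open Classical in
lemma s1_main (g : ZMod 8) (φ : Cell → PowerSeries ℂ) :
    (∑ b, if R1 (Sum.inl g) b then φ b else 0)
      = φ (Sum.inl g) + φ (Sum.inl (g + 6)) + φ (Sum.inr (Sum.inl (g + 1))) := by
  rw [Fintype.sum_sum_type, Fintype.sum_sum_type]
  have h1 : ∀ x : ZMod 8, R1 (Sum.inl g) (Sum.inl x) ↔ (x = g ∨ x = g + 6) := fun _ => Iff.rfl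
  have h2 : ∀ x : ZMod 8, R1 (Sum.inl g) (Sum.inr (Sum.inl x)) ↔ x = g + 1 := fun _ => Iff.rfl
  have h3 : ∀ x : Unit, R1 (Sum.inl g) (Sum.inr (Sum.inr x)) ↔ False := fun _ => Iff.rfl
  simp only [h1, h2, h3, if_false, Finset.sum_const_zero, Finset.sum_ite_eq',
    Finset.mem_univ, if_true, add_zero]
  congr 1
  exact sum_or _ _ (ne6 g) (fun x => φ (Sum.inl x))

open Classical in
lemma s1_mid (g : ZMod 8) (φ : Cell → PowerSeries ℂ) :
    (∑ b, if R1 (Sum.inr (Sum.inl g)) b then φ b else 0) = 0 := by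
  rw [Fintype.sum_sum_type, Fintype.sum_sum_type]
  have h1 : ∀ x : ZMod 8, R1 (Sum.inr (Sum.inl g)) (Sum.inl x) ↔ False := fun _ => Iff.rfl
  have h2 : ∀ x : ZMod 8, R1 (Sum.inr (Sum.inl g)) (Sum.inr (Sum.inl x)) ↔ False := fun _ => Iff.rfl
  have h3 : ∀ x : Unit, R1 (Sum.inr (Sum.inl g)) (Sum.inr (Sum.inr x)) ↔ False := fun _ => Iff.rfl
  simp only [h1, h2, h3, if_false, Finset.sum_const_zero, add_zero]

open Classical in
lemma s1_hub (φ : Cell → PowerSeries ℂ) :
    (∑ b, if R1 (Sum.inr (Sum.inr ())) b then φ b else 0) = 0 := by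
  rw [Fintype.sum_sum_type, Fintype.sum_sum_type]
  have h1 : ∀ x : ZMod 8, R1 (Sum.inr (Sum.inr ())) (Sum.inl x) ↔ False := fun _ => Iff.rfl
  have h2 : ∀ x : ZMod 8, R1 (Sum.inr (Sum.inr ())) (Sum.inr (Sum.inl x)) ↔ False := fun _ => Iff.rfl
  have h3 : ∀ x : Unit, R1 (Sum.inr (Sum.inr ())) (Sum.inr (Sum.inr x)) ↔ False := fun _ => Iff.rfl
  simp only [h1, h2, h3, if_false, Finset.sum_const_zero, add_zero]

open Classical in
lemma s1'_main (g : ZMod 8) (φ : Cell → PowerSeries ℂ) :
    (∑ b, if R1 b (Sum.inl g) then φ b else 0) = φ (Sum.inl g) + φ (Sum.inl (g + 2)) := by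
  rw [Fintype.sum_sum_type, Fintype.sum_sum_type]
  have h1 : ∀ x : ZMod 8, R1 (Sum.inl x) (Sum.inl g) ↔ (x = g ∨ x = g + 2) := by
    intro x
    show (g = x ∨ g = x + 6) ↔ _
    constructor
    · rintro (h | h)
      · exact Or.inl h.symm
      · right
        rw [h, add_assoc]
        have : (6 + 2 : ZMod 8) = 0 := by decide
        rw [this, add_zero]
    · rintro (h | h)
      · exact Or.inl h.symm
      · right
        rw [h, add_assoc]
        have : (2 + 6 : ZMod 8) = 0 := by decide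
        rw [this, add_zero]
  have h2 : ∀ x : ZMod 8, R1 (Sum.inr (Sum.inl x)) (Sum.inl g) ↔ False := fun _ => Iff.rfl
  have h3 : ∀ x : Unit, R1 (Sum.inr (Sum.inr x)) (Sum.inl g) ↔ False := fun _ => Iff.rfl
  simp only [h1, h2, h3, if_false, Finset.sum_const_zero, add_zero]
  exact sum_or _ _ (ne2 g) (fun x => φ (Sum.inl x))

open Classical in
lemma s1'_mid (g : ZMod 8) (φ : Cell → PowerSeries ℂ) :
    (∑ b, if R1 b (Sum.inr (Sum.inl g)) then φ b else 0) = φ (Sum.inl (g + 7)) := by
  rw [Fintype.sum_sum_type, Fintype.sum_sum_type]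
  have h1 : ∀ x : ZMod 8, R1 (Sum.inl x) (Sum.inr (Sum.inl g)) ↔ x = g + 7 := by
    intro x
    show (g = x + 1) ↔ _
    constructor
    · intro h
      rw [h, add_assoc]
      have : (1 + 7 : ZMod 8) = 0 := by decide
      rw [this, add_zero]
    · intro h
      rw [h, add_assoc]
      have : (7 + 1 : ZMod 8) = 0 := by decide
      rw [this, add_zero]
  have h2 : ∀ x : ZMod 8, R1 (Sum.inr (Sum.inl x)) (Sum.inr (Sum.inl g)) ↔ False := fun _ => Iff.rfl
  have h3 : ∀ x : Unit, R1 (Sum.inr (Sum.inr x)) (Sum.inr (Sum.inl g)) ↔ False := fun _ => Iff.rfl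
  simp only [h1, h2, h3, if_false, Finset.sum_const_zero, add_zero, Finset.sum_ite_eq',
    Finset.mem_univ, if_true]

open Classical in
lemma s1'_hub (φ : Cell → PowerSeries ℂ) :
    (∑ b, if R1 b (Sum.inr (Sum.inr ())) then φ b else 0) = 0 := by
  rw [Fintype.sum_sum_type, Fintype.sum_sum_type]
  have h1 : ∀ x : ZMod 8, R1 (Sum.inl x) (Sum.inr (Sum.inr ())) ↔ False := fun _ => Iff.rfl
  have h2 : ∀ x : ZMod 8, R1 (Sum.inr (Sum.inl x)) (Sum.inr (Sum.inr ())) ↔ False := fun _ => Iff.rfl
  have h3 : ∀ x : Unit, R1 (Sum.inr (Sum.inr x)) (Sum.inr (Sum.inr ())) ↔ False := fun _ => Iff.rfl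
  simp only [h1, h2, h3, if_false, Finset.sum_const_zero, add_zero]

open Classical in
lemma s2_main (g : ZMod 8) (φ : Cell → PowerSeries ℂ) :
    (∑ b, if R2 (Sum.inl g) b then φ b else 0) = 0 := by
  apply Finset.sum_eq_zero
  intro b _
  rcases b with h | h | h <;> simp [R2]

open Classical in
lemma s2_hub (φ : Cell → PowerSeries ℂ) :
    (∑ b, if R2 (Sum.inr (Sum.inr ())) b then φ b else 0) = 0 := by
  apply Finset.sum_eq_zero
  intro b _
  rcases b with h | h | h <;> simp [R2]

open Classical in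
lemma s2_mid (g : ZMod 8) (φ : Cell → PowerSeries ℂ) (hφ : ∀ h, φ (Sum.inr (Sum.inl h)) = 0) :
    (∑ b, if R2 (Sum.inr (Sum.inl g)) b then φ b else 0) = 0 := by
  apply Finset.sum_eq_zero
  intro b _
  rcases b with h | h | h
  · simp [R2]
  · rw [hφ]; simp
  · simp [R2]

/-- the character of `ZMod 8` -/
noncomputable def chi (g : ZMod 8) : PowerSeries ℂ := W ^ (g.val)

lemma W8 : W ^ 8 = 1 := by
  have : W ^ 8 = (W ^ 4) ^ 2 := by ring
  rw [this, W4]; ring

lemma chi_add (g a : ZMod 8) : chi (g + a) = chi g * W ^ (a.val) := by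
  unfold chi
  rw [ZMod.val_add, ← pow_add, pow_eq_pow_mod (g.val + a.val) W8]

lemma chi6 (g : ZMod 8) : chi (g + 6) = chi g * (- W ^ 2) := by
  rw [chi_add]
  have : (6 : ZMod 8).val = 6 := rfl
  rw [this]
  linear_combination chi g * W ^ 2 * W4

lemma chi1 (g : ZMod 8) : chi (g + 1) = chi g * W := by
  rw [chi_add]
  have : (1 : ZMod 8).val = 1 := rfl
  rw [this, pow_one]

lemma chi2 (g : ZMod 8) : chi (g + 2) = chi g * W ^ 2 := by
  rw [chi_add]
  rfl

lemma chi7 (g : ZMod 8) : chi (g + 7) = chi g * (- W ^ 3) := by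
  rw [chi_add]
  have : (7 : ZMod 8).val = 7 := rfl
  rw [this]
  linear_combination chi g * W ^ 3 * W4

lemma sum_chi : ∑ g : ZMod 8, chi g = 0 := by
  have h1 : ∑ g : ZMod 8, chi g = ∑ j : Fin 8, W ^ (j : ℕ) := rfl
  rw [h1, Fin.sum_univ_eq_sum_range (fun j => W ^ j) 8]
  simp only [Finset.sum_range_succ, Finset.sum_range_zero]
  linear_combination (1 + W + W ^ 2 + W ^ 3) * W4

/-- value on the main vertices of cell `i` -/
noncomputable def xx (N i : ℕ) : PowerSeries ℂ := w (N - 1 - i)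

/-- value on the middle vertices of cell `i` -/
noncomputable def mm (N i : ℕ) : PowerSeries ℂ :=
  if i = 0 then 0 else zz * ee * (xx N i - W ^ 3 * xx N (i - 1))

/-- the approximate eigenvector -/
noncomputable def hh (N i : ℕ) : Cell → PowerSeries ℂ
  | Sum.inl g => chi g * xx N i
  | Sum.inr (Sum.inl g) => chi g * mm N i
  | Sum.inr (Sum.inr _) => 0

open Classical in
lemma vertex_eq (N k : ℕ) (hN : 2 * k + 2 ≤ N) (v : Fin N × Cell) : PowerSeries.X ^ k ∣
      zz * (∑ w ∈ Finset.univ.filter (fun w => (chainG N).Adj v w),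
        (hh N w.1 w.2 - zz * hh N v.1 v.2)) - (1 - zz ^ 2) * hh N v.1 v.2 := by
  obtain ⟨i, a⟩ := v
  rw [nsum N (i, a) (fun j b => hh N j b - zz * hh N i a)]
  have hi := i.2
  have hx0 : (PowerSeries.X : PowerSeries ℂ) ^ k ∣ xx N 0 := w_dvd' k _ (by omega)
  have hx1 : (PowerSeries.X : PowerSeries ℂ) ^ k ∣ xx N 1 := w_dvd' k _ (by omega)
  have hm0 : mm N 0 = 0 := by unfold mm; rw [if_pos rfl]
  have hm1 : (PowerSeries.X : PowerSeries ℂ) ^ k ∣ mm N 1 := by
    unfold mm
    rw [if_neg one_ne_zero]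
    exact Dvd.dvd.mul_left (dvd_sub hx1 (Dvd.dvd.mul_left hx0 _)) _
  have hee := ee_mul
  rcases a with g | g | g
  · -- main vertices
    simp only [s0_main, s1_main, s1'_main, s2_main, hh, chi6, chi1, chi2]
    by_cases c0 : (i : ℕ) = 0
    · simp only [c0, zero_add, hm0]
      rw [if_pos (by omega), if_neg (by omega)]
      simp only [if_true]
      obtain ⟨r0, hr0⟩ := hx0
      obtain ⟨r1, hr1⟩ := hx1
      obtain ⟨r2, hr2⟩ := hm1
      rw [hr0, hr1, hr2]
      refine ⟨zz * chi g * (- 5 * zz * r0 + r1 - W ^ 2 * r1 + W * r2) - (1 - zz ^ 2) * chi g * r0, ?_⟩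
      ring
    · rw [if_pos (by omega : 1 ≤ (i : ℕ)), if_neg c0]
      have hmi : (1 + zz ^ 2) * mm N i = zz * (xx N i - W ^ 3 * xx N (i - 1)) := by
        unfold mm
        rw [if_neg c0]
        linear_combination zz * (xx N i - W ^ 3 * xx N (i - 1)) * hee
      by_cases c1 : (i : ℕ) + 1 < N
      · rw [if_pos c1]
        have hmi1 : (1 + zz ^ 2) * mm N (i + 1) = zz * (xx N (i + 1) - W ^ 3 * xx N i) := by
          unfold mm
          rw [if_neg (by omega)]
          have : (i : ℕ) + 1 - 1 = i := by omega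
          rw [this]
          linear_combination zz * (xx N (i + 1) - W ^ 3 * xx N i) * hee
        have hrec : gam * xx N (i - 1) = del * xx N i - bet * xx N (i + 1) := by
          unfold xx
          have e1 : N - 1 - ((i : ℕ) - 1) = (N - 2 - i) + 2 := by omega
          have e2 : N - 1 - (i : ℕ) = (N - 2 - i) + 1 := by omega
          have e3 : N - 1 - ((i : ℕ) + 1) = N - 2 - i := by omega
          rw [e1, e2, e3]
          exact gam_w _
        unfold gam del bet at hrec
        set E := zz * (chi g * mm N ↑i - zz * (chi g * xx N ↑i) + (0 - zz * (chi g * xx N ↑i)) +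
              (chi g * xx N (↑i + 1) - zz * (chi g * xx N ↑i) +
                  (chi g * -W ^ 2 * xx N (↑i + 1) - zz * (chi g * xx N ↑i)) +
                (chi g * W * mm N (↑i + 1) - zz * (chi g * xx N ↑i))) +
            (chi g * xx N (↑i - 1) - zz * (chi g * xx N ↑i) +
              (chi g * W ^ 2 * xx N (↑i - 1) - zz * (chi g * xx N ↑i))) + 0) -
            (1 - zz ^ 2) * (chi g * xx N ↑i) with hE
        have key : (1 + zz ^ 2) * E = 0 := by
          rw [hE]
          linear_combination (zz * chi g) * hmi + (zz * chi g * W) * hmi1 + chi g * hrec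
            - chi g * zz ^ 2 * xx N i * W4
        have h0 : E = 0 := by
          linear_combination ee * key - E * hee
        rw [h0]
        exact dvd_zero _
      · rw [if_neg c1]
        have hrec : gam * xx N (i - 1) = (1 + 3 * zz ^ 2 + 3 * zz ^ 4) * xx N i := by
          unfold xx
          have e1 : N - 1 - ((i : ℕ) - 1) = 1 := by omega
          have e2 : N - 1 - (i : ℕ) = 0 := by omega
          rw [e1, e2]
          exact gam_w1
        unfold gam at hrec
        set E := zz * (chi g * mm N ↑i - zz * (chi g * xx N ↑i) + (0 - zz * (chi g * xx N ↑i)) + 0 +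
            (chi g * xx N (↑i - 1) - zz * (chi g * xx N ↑i) +
              (chi g * W ^ 2 * xx N (↑i - 1) - zz * (chi g * xx N ↑i))) + 0) -
            (1 - zz ^ 2) * (chi g * xx N ↑i) with hE
        have key : (1 + zz ^ 2) * E = 0 := by
          rw [hE]
          linear_combination (zz * chi g) * hmi + chi g * hrec
        have h0 : E = 0 := by
          linear_combination ee * key - E * hee
        rw [h0]
        exact dvd_zero _
  · -- middle vertices
    simp only [s0_mid, s1_mid, s1'_mid, hh, chi7]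
    by_cases c0 : (i : ℕ) = 0
    · simp only [c0, hm0]
      rw [s2_mid g _ (by intro h; simp)]
      rw [if_neg (by omega : ¬ (1 ≤ 0))]
      simp only [if_true]
      obtain ⟨r0, hr0⟩ := hx0
      rw [hr0]
      refine ⟨zz * chi g * r0, ?_⟩
      split_ifs <;> ring
    · rw [if_pos (by omega : 1 ≤ (i : ℕ)), if_neg c0]
      have hmi : (1 + zz ^ 2) * mm N i = zz * (xx N i - W ^ 3 * xx N (i - 1)) := by
        unfold mm
        rw [if_neg c0]
        linear_combination zz * (xx N i - W ^ 3 * xx N (i - 1)) * hee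
      have h0 : (if (i : ℕ) + 1 < N then (0 : PowerSeries ℂ) else 0) = 0 := by split_ifs <;> rfl
      rw [h0]
      have h1 : zz * (chi g * xx N ↑i - zz * (chi g * mm N ↑i) + 0 +
              (chi g * -W ^ 3 * xx N (↑i - 1) - zz * (chi g * mm N ↑i)) + 0) -
          (1 - zz ^ 2) * (chi g * mm N ↑i) = 0 := by
        linear_combination - chi g * hmi
      rw [h1]
      exact dvd_zero _
  · -- hub
    simp only [s0_hub, s1_hub, s1'_hub, s2_hub, hh, mul_zero, sub_zero]
    rw [← Finset.sum_mul, sum_chi]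
    simp

lemma chain_block (N k : ℕ) (hk : 1 ≤ k) (hN : 2 * k + 2 ≤ N)
    [Fintype (chainG N).Dart] [DecidableEq (chainG N).Dart] :
    ∃ t, k ≤ t ∧ IsJordanBlockSize (nbMatrix (chainG N)) (z0⁻¹) t := by
  have hlast : N - 1 < N := by omega
  have hadj : (chainG N).Adj (⟨N - 1, hlast⟩, Sum.inr (Sum.inr ())) (⟨N - 1, hlast⟩, Sum.inl 0) :=
    Or.inl ⟨rfl, trivial⟩
  have hch := chain_of_series (nbMatrix (chainG N)) (z0⁻¹) k hk
    (fun d => hh N d.snd.1 d.snd.2 - zz * hh N d.fst.1 d.fst.2) lam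
    (- PowerSeries.C (z0⁻¹) * lam) lam_eq
    (by
      rw [map_mul, map_neg, clam, PowerSeries.constantCoeff_C]
      exact mul_ne_zero (neg_ne_zero.mpr (inv_ne_zero z0_ne)) (inv_ne_zero z0_ne))
    (fun d => eig_of_vertex (chainG N) k (fun v => hh N v.1 v.2) zz lam lam_mul
      (vertex_eq N k hN) d)
    ⟨((⟨N - 1, hlast⟩, Sum.inr (Sum.inr ())), (⟨N - 1, hlast⟩, Sum.inl 0)), hadj⟩
    (by
      have h1 : chi 0 = 1 := by
        unfold chi
        rw [ZMod.val_zero, pow_zero]
      have h2 : N - 1 - (N - 1) = 0 := by omega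
      simp only [hh, h1, xx, h2, w]
      simp)
  obtain ⟨t, ht, hb⟩ := exists_block_of_chain _ k hk _ hch.1 hch.2
  exact ⟨t, ht, by omega, hb⟩

lemma chain_noLeaves (N : ℕ) : NoLeaves (chainG N) := by
  have aux : ∀ (v a b : Fin N × Cell), (chainG N).Adj v a → (chainG N).Adj v b → a ≠ b →
      ((chainG N).neighborSet v).ncard ≠ 1 := by
    intro v a b ha hb hab h
    rw [Set.ncard_eq_one] at h
    obtain ⟨c, hc⟩ := h
    have h1 : a ∈ (chainG N).neighborSet v := ha
    have h2 : b ∈ (chainG N).neighborSet v := hb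
    rw [hc, Set.mem_singleton_iff] at h1 h2
    exact hab (h1.trans h2.symm)
  rintro ⟨i, g | g | g⟩
  · refine aux _ (i, Sum.inr (Sum.inl g)) (i, Sum.inr (Sum.inr ())) (Or.inl ⟨rfl, rfl⟩)
      (Or.inl ⟨rfl, trivial⟩) (by simp)
  · by_cases h0 : (i : ℕ) = 0
    · refine aux _ (i, Sum.inl g) (i, Sum.inr (Sum.inl (g + 1))) (Or.inl ⟨rfl, rfl⟩)
        (Or.inr (Or.inr (Or.inr ⟨⟨h0, h0⟩, Or.inl rfl⟩))) (by simp)
    · have hi := i.2
      refine aux _ (i, Sum.inl g) (⟨(i : ℕ) - 1, by omega⟩, Sum.inl (g + 7)) (Or.inl ⟨rfl, rfl⟩)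
        (Or.inr (Or.inr (Or.inl ⟨?_, ?_⟩))) ?_
      · show (i : ℕ) - 1 + 1 = i
        omega
      · show g = g + 7 + 1
        rw [add_assoc]
        have : (7 + 1 : ZMod 8) = 0 := by decide
        rw [this, add_zero]
      · intro h
        have h1 := congrArg (fun p : Fin N × Cell => (p.1 : ℕ)) h
        simp only at h1
        omega
  · refine aux _ (i, Sum.inl 0) (i, Sum.inl 1) (Or.inl ⟨rfl, trivial⟩) (Or.inl ⟨rfl, trivial⟩) ?_
    intro h
    have h1 := congrArg (fun p : Fin N × Cell => p.2) h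
    simp only [Sum.inl.injEq] at h1
    exact absurd h1 (by decide)

end chaingraph

/-- the lower bound -/
lemma le_f (n k : ℕ) (hk : 1 ≤ k) (hn : 17 * (2 * k + 2) ≤ n) : k ≤ f n := by
  classical
  obtain ⟨t, ht, hblock⟩ := chain_block (2 * k + 2) k hk le_rfl
  have hcard : Fintype.card (Fin (2 * k + 2) × Cell) ≤ Fintype.card (Fin n) := by
    have h8 : Fintype.card (ZMod 8) = 8 := ZMod.card 8
    rw [Fintype.card_fin, Fintype.card_prod, Fintype.card_fin, Fintype.card_sum, Fintype.card_sum,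
      h8, Fintype.card_unit]
    omega
  obtain ⟨φ⟩ := Function.Embedding.nonempty_of_card_le hcard
  have hmem : t ∈ blockSizes n := by
    refine ⟨(chainG (2 * k + 2)).map φ, noLeaves_map _ φ (chain_noLeaves _), ?_, z0⁻¹, ?_⟩
    · have hadj : (chainG (2 * k + 2)).Adj (⟨0, by omega⟩, Sum.inr (Sum.inr ()))
          (⟨0, by omega⟩, Sum.inl 0) := Or.inl ⟨rfl, trivial⟩
      exact exists_adj_map (chainG (2 * k + 2)) φ hadj
    · have hfin := block_reindex (dartEquiv (chainG (2 * k + 2)) φ) (nbMatrix (chainG (2 * k + 2)))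
        (nbMatrix ((chainG (2 * k + 2)).map φ)) (nb_dartEquiv (chainG (2 * k + 2)) φ) (z0⁻¹) t hblock
      exact block_inst _ _ _ _ _ _ _ hfin
  have := le_csSup (blockSizes_bddAbove n) hmem
  unfold f
  omega

/-- The maximal size `f n` of a Jordan block of the nonbacktracking matrix of an `n`-vertex graph
without leaves has linear growth: `(n - 67) / 34 ≤ f n ≤ 2 n + 1` for all `n`. In particular
`f n` is not `o(n)`. -/
theorem result :
    (∀ n : ℕ, n ≤ 34 * f n + 67 ∧ f n ≤ 2 * n + 1) ∧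
    (fun n : ℕ => (f n : ℝ)) =Θ[atTop] (fun n : ℕ => (n : ℝ)) ∧
    ¬ (fun n : ℕ => (f n : ℝ)) =o[atTop] (fun n : ℕ => (n : ℝ)) := by
  have h1 : ∀ n : ℕ, n ≤ 34 * f n + 67 ∧ f n ≤ 2 * n + 1 := by
    intro n
    refine ⟨?_, f_le n⟩
    by_cases hn : n < 68
    · omega
    · have h2 := le_f n ((n - 34) / 34) (by omega) (by omega)
      omega
  have h2 : (fun n : ℕ => (f n : ℝ)) =Θ[atTop] (fun n : ℕ => (n : ℝ)) := by
    constructor
    · apply Asymptotics.IsBigO.of_bound 3
      filter_upwards [eventually_ge_atTop 1] with n hn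
      rw [Real.norm_natCast, Real.norm_natCast]
      have h3 := (h1 n).2
      have h4 : f n ≤ 3 * n := by omega
      exact_mod_cast h4
    · apply Asymptotics.IsBigO.of_bound 101
      filter_upwards [eventually_ge_atTop 68] with n hn
      rw [Real.norm_natCast, Real.norm_natCast]
      have h3 := (h1 n).1
      have h4 : n ≤ 101 * f n := by omega
      exact_mod_cast h4
  refine ⟨h1, h2, ?_⟩
  intro h3
  have h4 : (fun n : ℕ => (n : ℝ)) =o[atTop] (fun n : ℕ => (n : ℝ)) := h2.2.trans_isLittleO h3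
  refine Asymptotics.isLittleO_irrefl ?_ h4
  apply Filter.Eventually.frequently
  filter_upwards [eventually_ge_atTop 1] with n hn
  have : n ≠ 0 := by omega
  exact_mod_cast this

end Pool.Agent.Results.MP_b5bb8b_co.LinearGrowth
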